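import Mathlib
import Pool.Agent.Q36.FD.High

set_option autoImplicit false

/-!
Monomial ideals whose powers become field-dependent exactly from a given power on.

The definitions of the statement are in `Pool.Agent.Q36.FD.Kos`:
* `monIdeal k G`: the ideal of `k[x_1,…,x_n]` generated by the monomials with exponents in the finite
  set `G`;
* `koszulD`, `chains`, `cycles`, `boundaries`: the Koszul complex of `x_1,…,x_n` with coefficients in an
  ideal `J`, in homological degree `i` and multidegree `a`;
* `betti J i a`: the multigraded Betti number `β_{i,a}(J) = dim_k Tor_i(J, k)_a`, computed as the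
  dimension of the homology of this complex.
-/

namespace Pool.Agent.Results.MP_8a71fe_al.EveryPower

open Q36.FD

universe u v

/-- For every `h ≥ 1` there is a monomial ideal `I` such that for `1 ≤ l < h` the multigraded Betti
numbers of `I ^ l` do not depend on the field, while for every `l ≥ h` some multigraded Betti number
of `I ^ l` over any field of characteristic two differs from the one over any field of another
characteristic. -/
theorem result (h : ℕ) (hh : 1 ≤ h) : ∃ (n : ℕ) (G : Finset (Fin n →₀ ℕ)),
    (∀ l : ℕ, 1 ≤ l → l < h → ∀ (k : Type u) (k' : Type v) [Field k] [Field k'] (i : ℕ)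
      (a : Fin n →₀ ℕ), betti (monIdeal k G ^ l) i a = betti (monIdeal k' G ^ l) i a) ∧
    (∀ l : ℕ, h ≤ l → ∃ (i : ℕ) (a : Fin n →₀ ℕ), ∀ (k : Type u) (k' : Type v) [Field k]
      [Field k'], CharP k 2 → ¬ CharP k' 2 →
      betti (monIdeal k G ^ l) i a ≠ betti (monIdeal k' G ^ l) i a) := by
  refine ⟨8, G h, fun l _ hl k k' _ _ i a => low_betti hl k k' i a,
    fun l hl => ⟨3, aa h l, fun k k' _ _ h2 h2' => ?_⟩⟩
  rw [betti_eq_cb, betti_eq_cb, high_KX k hh hl, high_KX k' hh hl]
  have h3 : (2 : k') ≠ 0 := by
    intro h0
    apply h2'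
    refine CharTwo.of_one_ne_zero_of_two_eq_zero one_ne_zero h0
  rw [cb_ne_two k' h3]
  exact cb_two k

end Pool.Agent.Results.MP_8a71fe_al.EveryPower
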